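import Pool.Agent.Run7.h406.G.Main
import Pool.Agent.TH358.BG.Main

/-!
# The complexes `Γ(X,n) ⊗ ℚ` for open subsets `X` of `P^1` over infinite algebraic extensions of `F_p`

Let `X` be a nonempty open subset of the projective line over an infinite algebraic extension `k`
of `F_p`; more generally let `X` be a regular curve whose function field `F` is a field such that
every finite subset of `F` lies in a subfield isomorphic to `k(x)`, `k` an infinite algebraic
extension of `F_p` (`LocRational F`), and whose closed points have residue fields algebraic over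
`F_p`. Then `Γ(X,n) ⊗ ℚ` is acyclic for all `n ≥ 2`. On the side of `K`-theory
`gr_n K_m(X)_ℚ = 0` for all `n ≥ 2` and all `m`.

The starting files have this for `k` algebraically closed (`OpenSubsetsProjectiveLine`), together
with the isomorphism `Γ(X,n) ⊗ ℚ → Γ(F,n) ⊗ ℚ`, `n ≥ 2`, for all curves over algebraic extensions of
`F_p`, which is used here. The acyclicity of `Γ(F,n) ⊗ ℚ` is proved in `Pool/Agent/Run7/h406/G`.
-/

set_option autoImplicit false

namespace Pool.Agent.Results.MP_bae8ce_ag.ProjectiveLineInfiniteConstants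

open GonP Pool.Agent.TH358.BG Pool.Agent.Run7.h406.G

theorem result :
    -- `F` is the function field of `X`, `κ x` the residue field of `x ∈ X`
    (∀ (F : Type) [Field F], LocRational F → Nonempty (Differentials F) ∧
      ∀ (p : ℕ) [Fact p.Prime] (X : Type) (κ : X → Type) [∀ x, Field (κ x)]
        [∀ x, Algebra (ZMod p) (κ x)] [∀ x, Algebra.IsAlgebraic (ZMod p) (κ x)],
      (∀ x, Nonempty (Differentials (κ x))) ∧
      ∀ (DF : Differentials F) (Dκ : ∀ x, Differentials (κ x)) (res : Res F κ),
        XAcyclic DF Dκ res) ∧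
    (∀ (p : ℕ) [Fact p.Prime] (k : Type) [Field k] [Infinite k] [Algebra (ZMod p) k]
      [Algebra.IsAlgebraic (ZMod p) k], LocRational (RatFunc k)) := by
  refine ⟨fun F _ hF => ?_, fun p _ k _ _ _ _ => locRational_ratFunc p k⟩
  obtain ⟨D, hD, hA⟩ := acyclicP_loc F hF
  refine ⟨⟨D⟩, ?_⟩
  intro p _ X κ _ _ _
  refine ⟨fun x => nonempty_diff p (κ x), fun DF Dκ res => ?_⟩
  refine (xacyclic F κ DF Dκ res (generic p F κ DF Dκ res)).2 ?_
  rw [hD DF]
  exact hA

end Pool.Agent.Results.MP_bae8ce_ag.ProjectiveLineInfiniteConstants
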